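import Pool.Agent.H27.Modu

set_option autoImplicit false

open Pool.Agent.H27.Modu

namespace Pool.Agent.Results.MP_aae45c_an.NotRegular

theorem result : (∀ p : ℕ → ℝ, (∀ n, 1 ≤ p n) → ¬BddAbove (Set.range p) → NotRegular (rho p)) ∧
    NotRegular (rho fun n => n + 1) :=
  ⟨fun _ => notRegular, notRegular (fun n => by simp) fun ⟨M, hM⟩ => by
    obtain ⟨n, hn⟩ := exists_nat_gt M
    linarith [hM ⟨n, rfl⟩]⟩

end Pool.Agent.Results.MP_aae45c_an.NotRegular
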